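import Pool.Agent.H369Z.SCT.Sep

namespace Pool.Agent.Results.MP_1f99fc_al.AndreCoarsest

open Pool.Agent.H369Z.SCT

/-- The supercharacter theory of Andre for `U_n(F)`, `F` a finite field, is the coarsest
supercharacter theory that contains all single-box supercharacters as irreducible characters:
(1) the sets of constituents of the orbit sums and the superclasses form a supercharacter theory,
(2) its supercharacters are the orbit sums, (3) it contains the single-box characters, and
(4) every block of the partition of the group of any supercharacter theory containing the
single-box characters lies inside one superclass of Andre. -/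
theorem result (n : ℕ) (F : Type) [Field F] [Finite F] (theta : AddChar F ℂ) (ht : theta ≠ 1) :
    IsSCT (Set.range (constituents (n := n) theta)) (Set.range superclass) ∧
    (∀ (l : Module.Dual F (SU n F)) (g : UT n F),
      sigma (constituents theta l) g = superchar theta l g) ∧
    ContainsBoxes theta (Set.range (constituents (n := n) theta)) ∧
    ∀ (XX : Set (Set (UT n F → ℂ))) (KK : Set (Set (UT n F))), IsSCT XX KK →
      ContainsBoxes theta XX → ∀ K ∈ KK, ∃ x : UT n F, K ⊆ superclass x :=
  ⟨andre_isSCT ht, sigma_const ht, andre_boxes ht, coarsest ht⟩

end Pool.Agent.Results.MP_1f99fc_al.AndreCoarsest
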